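/-!
Integer witnesses, checked with natural numbers modulo `2 ^ 1024` (two-s complement): functions
evaluated by the kernel. No imports, so that the data files load quickly.
-/

set_option autoImplicit false
set_option linter.unusedVariables false

namespace Pool.Agent.GS

def Q : Nat := nat_lit 179769313486231590772930519078902473361797697894230657273430081157732675805500963132708477322407536021120113879871393357658789768814416622492847430639474124377767893424865485276302219601246094119453082952085005768838150682342462881473913110540827237163350510684586298239947245938479716304835356329624224137216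
def Q2 : Nat := nat_lit 32317006071311007300714876688669951960444102669715484032130345427524655138867890893197201411522913463688717960921898019494119559150490921095088152386448283120630877367300996091750197750389652106796057638384067568276792218642619756161838094338476170470581645852036305042887575891541065808607552399123930385521914333389668342420684974786564569494856176035326322058077805659331026192708460314150258592864177116725943603718461857357598351152301645904403697613233287231227125684710820209725157101726931323469678542580656697935045997268352998638215525166389437335543602135433229604645318478604952148193555853611059596230656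
def Qh : Nat := nat_lit 89884656743115795386465259539451236680898848947115328636715040578866337902750481566354238661203768010560056939935696678829394884407208311246423715319737062188883946712432742638151109800623047059726541476042502884419075341171231440736956555270413618581675255342293149119973622969239858152417678164812112068607

/-- `p * x - y * z` modulo `Q` -/
def ms (p x y z : Nat) : Nat := Nat.mod (Nat.add (Nat.mul p x) (Nat.sub Q2 (Nat.mul y z))) Q
/-- append the bit `x = 0` -/
def push (acc x : Nat) : Nat := Nat.add (Nat.mul (nat_lit 2) acc) (Nat.sub (nat_lit 1) x)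

def E3_0 (a00 a01 a02 a11 a12 a22 acc : Nat) : Nat :=
  push (push (push (push (push (push acc a01) a02) a12) (ms a00 a12 a01 a02)) (ms a11 a02 a01 a12))
    (ms a22 a01 a02 a12)
def E3_1 (a01 a02 a11 a12 a22 acc : Nat) : Nat :=
  push (push (push (push (push acc a01) a02) a12) (ms a11 a02 a01 a12)) (ms a22 a01 a02 a12)
def E3_2 (a01 a02 a12 a22 acc : Nat) : Nat :=
  push (push (push (push acc a01) a02) a12) (ms a22 a01 a02 a12)
def E3_3 (a01 a02 a12 acc : Nat) : Nat :=
  push (push (push acc a01) a02) a12
/-- symbols of the 4 x 4 matrix `a`, pivots from index 0 on -/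
def E4_0 (a00 a01 a02 a03 a11 a12 a13 a22 a23 a33 acc : Nat) : Nat :=
  (E3_3 (ms a33 a01 a03 a13)
    (ms a33 a02 a03 a23)
    (ms a33 a12 a13 a23)
    (E3_2 (ms a22 a01 a02 a12)
    (ms a22 a03 a02 a23)
    (ms a22 a13 a12 a23)
    (ms a22 a33 a23 a23)
    (E3_1 (ms a11 a02 a01 a12)
    (ms a11 a03 a01 a13)
    (ms a11 a22 a12 a12)
    (ms a11 a23 a12 a13)
    (ms a11 a33 a13 a13)
    (E3_0 (ms a00 a11 a01 a01)
    (ms a00 a12 a01 a02)
    (ms a00 a13 a01 a03)
    (ms a00 a22 a02 a02)
    (ms a00 a23 a02 a03)
    (ms a00 a33 a03 a03)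
    (push (push (push (push (push (push acc a01) a02) a03) a12) a13) a23)))))
/-- symbols of the 4 x 4 matrix `a`, pivots from index 1 on -/
def E4_1 (a00 a01 a02 a03 a11 a12 a13 a22 a23 a33 acc : Nat) : Nat :=
  (E3_3 (ms a33 a01 a03 a13)
    (ms a33 a02 a03 a23)
    (ms a33 a12 a13 a23)
    (E3_2 (ms a22 a01 a02 a12)
    (ms a22 a03 a02 a23)
    (ms a22 a13 a12 a23)
    (ms a22 a33 a23 a23)
    (E3_1 (ms a11 a02 a01 a12)
    (ms a11 a03 a01 a13)
    (ms a11 a22 a12 a12)
    (ms a11 a23 a12 a13)
    (ms a11 a33 a13 a13)
    (push (push (push (push (push (push acc a01) a02) a03) a12) a13) a23))))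
/-- symbols of the 4 x 4 matrix `a`, pivots from index 2 on -/
def E4_2 (a00 a01 a02 a03 a11 a12 a13 a22 a23 a33 acc : Nat) : Nat :=
  (E3_3 (ms a33 a01 a03 a13)
    (ms a33 a02 a03 a23)
    (ms a33 a12 a13 a23)
    (E3_2 (ms a22 a01 a02 a12)
    (ms a22 a03 a02 a23)
    (ms a22 a13 a12 a23)
    (ms a22 a33 a23 a23)
    (push (push (push (push (push (push acc a01) a02) a03) a12) a13) a23)))
/-- symbols of the 4 x 4 matrix `a`, pivots from index 3 on -/
def E4_3 (a00 a01 a02 a03 a11 a12 a13 a22 a23 a33 acc : Nat) : Nat :=
  (E3_3 (ms a33 a01 a03 a13)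
    (ms a33 a02 a03 a23)
    (ms a33 a12 a13 a23)
    (push (push (push (push (push (push acc a01) a02) a03) a12) a13) a23))
/-- symbols of the 4 x 4 matrix `a`, pivots from index 4 on -/
def E4_4 (a00 a01 a02 a03 a11 a12 a13 a22 a23 a33 acc : Nat) : Nat :=
  (push (push (push (push (push (push acc a01) a02) a03) a12) a13) a23)
/-- internal code of the zero set of the symmetric matrix `a` (entries modulo `Q`) -/
def E5 (a00 a01 a02 a03 a04 a11 a12 a13 a14 a22 a23 a24 a33 a34 a44 acc : Nat) : Nat :=
  (E4_4 (ms a44 a00 a04 a04)
    (ms a44 a01 a04 a14)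
    (ms a44 a02 a04 a24)
    (ms a44 a03 a04 a34)
    (ms a44 a11 a14 a14)
    (ms a44 a12 a14 a24)
    (ms a44 a13 a14 a34)
    (ms a44 a22 a24 a24)
    (ms a44 a23 a24 a34)
    (ms a44 a33 a34 a34)
    (E4_3 (ms a33 a00 a03 a03)
    (ms a33 a01 a03 a13)
    (ms a33 a02 a03 a23)
    (ms a33 a04 a03 a34)
    (ms a33 a11 a13 a13)
    (ms a33 a12 a13 a23)
    (ms a33 a14 a13 a34)
    (ms a33 a22 a23 a23)
    (ms a33 a24 a23 a34)
    (ms a33 a44 a34 a34)
    (E4_2 (ms a22 a00 a02 a02)
    (ms a22 a01 a02 a12)
    (ms a22 a03 a02 a23)
    (ms a22 a04 a02 a24)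
    (ms a22 a11 a12 a12)
    (ms a22 a13 a12 a23)
    (ms a22 a14 a12 a24)
    (ms a22 a33 a23 a23)
    (ms a22 a34 a23 a24)
    (ms a22 a44 a24 a24)
    (E4_1 (ms a11 a00 a01 a01)
    (ms a11 a02 a01 a12)
    (ms a11 a03 a01 a13)
    (ms a11 a04 a01 a14)
    (ms a11 a22 a12 a12)
    (ms a11 a23 a12 a13)
    (ms a11 a24 a12 a14)
    (ms a11 a33 a13 a13)
    (ms a11 a34 a13 a14)
    (ms a11 a44 a14 a14)
    (E4_0 (ms a00 a11 a01 a01)
    (ms a00 a12 a01 a02)
    (ms a00 a13 a01 a03)
    (ms a00 a14 a01 a04)
    (ms a00 a22 a02 a02)
    (ms a00 a23 a02 a03)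
    (ms a00 a24 a02 a04)
    (ms a00 a33 a03 a03)
    (ms a00 a34 a03 a04)
    (ms a00 a44 a04 a04)
    (push (push (push (push (push (push (push (push (push (push acc a01) a02) a03) a04) a12) a13) a14) a23) a24) a34))))))

/-- `x` represents a positive number -/
def posQ (x : Nat) : Bool := (Nat.ble (nat_lit 1) x).and (Nat.ble x Qh)

/-- all pivots of the 2 x 2 matrix are positive -/
def PD2 (a00 a01 a11 : Nat) : Bool := (posQ a00).and (posQ (ms a00 a11 a01 a01))
def PD3 (a00 a01 a02 a11 a12 a22 : Nat) : Bool :=
  (posQ a00).and (PD2 (ms a00 a11 a01 a01) (ms a00 a12 a01 a02) (ms a00 a22 a02 a02))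
def PD4 (a00 a01 a02 a03 a11 a12 a13 a22 a23 a33 : Nat) : Bool :=
  (posQ a00).and (PD3 (ms a00 a11 a01 a01) (ms a00 a12 a01 a02) (ms a00 a13 a01 a03)
    (ms a00 a22 a02 a02) (ms a00 a23 a02 a03) (ms a00 a33 a03 a03))
/-- all pivots of the 5 x 5 matrix are positive -/
def PD5 (a00 a01 a02 a03 a04 a11 a12 a13 a14 a22 a23 a24 a33 a34 a44 : Nat) : Bool :=
  (posQ a00).and (PD4 (ms a00 a11 a01 a01) (ms a00 a12 a01 a02) (ms a00 a13 a01 a03)
    (ms a00 a14 a01 a04) (ms a00 a22 a02 a02) (ms a00 a23 a02 a03) (ms a00 a24 a02 a04)
    (ms a00 a33 a03 a03) (ms a00 a34 a03 a04) (ms a00 a44 a04 a04))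

/-- decode an entry stored in `b` bits with offset `2 ^ (b - 1)`: `off = Q - 2 ^ (b - 1)`,
`m = 2 ^ b - 1` -/
def dec (m off x : Nat) : Nat := Nat.mod (Nat.add (Nat.land x m) off) Q

def wit1 (c a00 a01 a02 a03 a04 a11 a12 a13 a14 a22 a23 a24 a33 a34 a44 : Nat) : Bool :=
  (Nat.beq (E5 a00 a01 a02 a03 a04 a11 a12 a13 a14 a22 a23 a24 a33 a34 a44 (nat_lit 0)) c).and
    (PD5 a00 a01 a02 a03 a04 a11 a12 a13 a14 a22 a23 a24 a33 a34 a44)

/-- the record `r` holds 15 entries of `b` bits each (first entry lowest); they form a positive
definite matrix with internal code `c` -/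
def witOK (b m off c r : Nat) : Bool :=
  wit1 c (dec m off r) (dec m off (Nat.shiftRight r b))
    (dec m off (Nat.shiftRight r (Nat.mul b (nat_lit 2))))
    (dec m off (Nat.shiftRight r (Nat.mul b (nat_lit 3))))
    (dec m off (Nat.shiftRight r (Nat.mul b (nat_lit 4))))
    (dec m off (Nat.shiftRight r (Nat.mul b (nat_lit 5))))
    (dec m off (Nat.shiftRight r (Nat.mul b (nat_lit 6))))
    (dec m off (Nat.shiftRight r (Nat.mul b (nat_lit 7))))
    (dec m off (Nat.shiftRight r (Nat.mul b (nat_lit 8))))
    (dec m off (Nat.shiftRight r (Nat.mul b (nat_lit 9))))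
    (dec m off (Nat.shiftRight r (Nat.mul b (nat_lit 10))))
    (dec m off (Nat.shiftRight r (Nat.mul b (nat_lit 11))))
    (dec m off (Nat.shiftRight r (Nat.mul b (nat_lit 12))))
    (dec m off (Nat.shiftRight r (Nat.mul b (nat_lit 13))))
    (dec m off (Nat.shiftRight r (Nat.mul b (nat_lit 14))))

/-- the widths used: `b = 8, 16, 32, 64` for `k = 0, 1, 2, 3` -/
def wB (k : Nat) : Nat := Nat.shiftLeft (nat_lit 8) k

def witK0 (c r : Nat) : Bool := witOK (nat_lit 8) (nat_lit 255) (nat_lit 179769313486231590772930519078902473361797697894230657273430081157732675805500963132708477322407536021120113879871393357658789768814416622492847430639474124377767893424865485276302219601246094119453082952085005768838150682342462881473913110540827237163350510684586298239947245938479716304835356329624224137088) c r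
def witK1 (c r : Nat) : Bool := witOK (nat_lit 16) (nat_lit 65535) (nat_lit 179769313486231590772930519078902473361797697894230657273430081157732675805500963132708477322407536021120113879871393357658789768814416622492847430639474124377767893424865485276302219601246094119453082952085005768838150682342462881473913110540827237163350510684586298239947245938479716304835356329624224104448) c r
def witK2 (c r : Nat) : Bool := witOK (nat_lit 32) (nat_lit 4294967295) (nat_lit 179769313486231590772930519078902473361797697894230657273430081157732675805500963132708477322407536021120113879871393357658789768814416622492847430639474124377767893424865485276302219601246094119453082952085005768838150682342462881473913110540827237163350510684586298239947245938479716304835356329622076653568) c r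
def witK3 (c r : Nat) : Bool := witOK (nat_lit 64) (nat_lit 18446744073709551615) (nat_lit 179769313486231590772930519078902473361797697894230657273430081157732675805500963132708477322407536021120113879871393357658789768814416622492847430639474124377767893424865485276302219601246094119453082952085005768838150682342462881473913110540827237163350510684586298239947245938479716304826132957587369361408) c r

end Pool.Agent.GS
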