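import Pool.Agent.GS.K.Mask

/-!
The search tree: kernel-evaluated checks (definitions only), part 1.
-/

set_option autoImplicit false
set_option linter.unusedVariables false


namespace Pool.Agent.GS.Tree

def M80 : Nat := nat_lit 1208925819614629174706175

def isZ (x : Nat) : Bool := Nat.beq x (nat_lit 0)

/-- all digits of the mask `c` are `1` in `s` -/
def bt (s c : Nat) : Bool := Nat.beq (Nat.land s c) c

/-- the decided sets of `(A, w)` contain the image of the pattern `R` under `T` -/
def patHit2 (A w m1 m0 : Nat) : Bool :=
  (bt A m1).and ((isZ (Nat.land A m0)).and (isZ (Nat.land m0 (Nat.pred (Nat.mul (nat_lit 2) w)))))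

noncomputable def patHit (R T A w : Nat) : Bool := patHit2 A w (mask1 R T) (mask0 R T)

/-- local patterns: an entry has 160 bits: low 80 bits = all positions of the pattern, high 80
bits = the members among them (never empty) -/
def locChk2 (A W M : Nat) : Bool := (Nat.beq (Nat.land A W) M).and (isZ M).not

def locChk (A E : Nat) : Bool :=
  locChk2 A (Nat.land E M80) (Nat.land (Nat.shiftRight E (nat_lit 80)) M80)

/-- the first `n` digits of the image of `A` under `T` -/
noncomputable def imgTop (A n : Nat) : Nat → Nat → Nat :=
  Nat.rec (fun _ acc => acc)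
    (fun _ ih T acc => ih (Nat.shiftRight T (nat_lit 7))
      (Nat.add (Nat.mul (nat_lit 2) acc)
        (Nat.land (Nat.shiftRight A (Nat.land T (nat_lit 127))) (nat_lit 1)))) n

/-- the first `n` positions are decided, and the image is larger there -/
noncomputable def lexChk (A w n T : Nat) : Bool :=
  ((Nat.ble n (nat_lit 80)).and
    (Nat.ble (Nat.succ w) (Nat.shiftLeft (nat_lit 1) (Nat.sub (nat_lit 80) n)))).and
    (Nat.ble (Nat.succ (Nat.shiftRight A (Nat.sub (nat_lit 80) n))) (imgTop A n T (nat_lit 0)))

end Pool.Agent.GS.Tree
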