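import Pool.Agent.GS.K.GTab

set_option autoImplicit false
set_option linter.unusedVariables false

namespace Pool.Agent.GS

/-! ### Pattern entries

An entry `R` (128 digits): 4 digits number of members, 5 digits number of non-members, then the
positions, 7 digits each, members first. A group table `T` has in lane `p` (7 digits) the lane
`79 - h p` of the image of position `p`; `gTab 0` is the identity. -/

/-- weight of the image of position `p` under the table `T` -/
def gam (T p : Nat) : Nat :=
  Nat.shiftLeft (nat_lit 1) (Nat.land (Nat.shiftRight T (Nat.mul (nat_lit 7) p)) (nat_lit 127))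

/-- the union of `acc` and the weights of the images of the first `k` positions in the list `R` -/
noncomputable def maskLoop (T k : Nat) : Nat → Nat → Nat :=
  Nat.rec (fun _ acc => acc)
    (fun _ ih R acc =>
      ih (Nat.shiftRight R (nat_lit 7)) (Nat.lor acc (gam T (Nat.land R (nat_lit 127))))) k

def rK1 (R : Nat) : Nat := Nat.land R (nat_lit 15)
def rK0 (R : Nat) : Nat := Nat.land (Nat.shiftRight R (nat_lit 4)) (nat_lit 31)
def rL1 (R : Nat) : Nat := Nat.shiftRight R (nat_lit 9)
def rL0 (R : Nat) : Nat := Nat.shiftRight R (Nat.add (nat_lit 9) (Nat.mul (nat_lit 7) (rK1 R)))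

/-- the members resp. non-members of the image of the pattern `R` under `T` -/
noncomputable def mask1 (R T : Nat) : Nat := maskLoop T (rK1 R) (rL1 R) (nat_lit 0)
noncomputable def mask0 (R T : Nat) : Nat := maskLoop T (rK0 R) (rL0 R) (nat_lit 0)

def M128 : Nat := nat_lit 0xffffffffffffffffffffffffffffffff

/-- entry `i` of the block `B` -/
def entB (B i : Nat) : Nat := Nat.land (Nat.shiftRight B (Nat.mul (nat_lit 128) i)) M128

end Pool.Agent.GS
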