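import Pool.Agent.GS.K.Tree

set_option autoImplicit false
set_option linter.unusedVariables false

namespace Pool.Agent.GS

def M168 : Nat := nat_lit 0xffffffffffffffffffffffffffffffffffffffffff

/-- entry `i` (168 digits) of the block `B` of node codes -/
def entN (B i : Nat) : Nat := Nat.land (Nat.shiftRight B (Nat.mul (nat_lit 168) i)) M168

/-- the first `n` nodes of the block `B` have a checked subtree -/
def AllN (B n : Nat) : Prop := ∀ i, i < n → ∃ s, Tree.chunkRun (entN B i) s = true

theorem AllN.zero (B : Nat) : AllN B 0 := fun _ h => absurd h (Nat.not_lt_zero _)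

theorem AllN.step {B n s : Nat} (h : AllN B n) (hs : Tree.chunkRun (entN B n) s = true) :
    AllN B (n + 1) := by
  intro i hi
  rcases Nat.lt_or_eq_of_le (Nat.le_of_lt_succ hi) with h1 | h1
  · exact h i h1
  · subst h1
    exact ⟨s, hs⟩

end Pool.Agent.GS
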