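import Pool.Agent.GS.K.N.C0
import Pool.Agent.GS.K.N.C1
import Pool.Agent.GS.K.N.C2
import Pool.Agent.GS.K.N.C3
import Pool.Agent.GS.K.N.C4
import Pool.Agent.GS.K.N.C5
import Pool.Agent.GS.K.N.C6
import Pool.Agent.GS.K.N.C7
import Pool.Agent.GS.K.N.C8
import Pool.Agent.GS.K.N.C9
import Pool.Agent.GS.K.N.C10
import Pool.Agent.GS.K.N.C11
import Pool.Agent.GS.K.N.C12
import Pool.Agent.GS.K.N.C13
import Pool.Agent.GS.K.N.C14
import Pool.Agent.GS.K.N.C15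
import Pool.Agent.GS.K.N.C16
import Pool.Agent.GS.K.N.C17
import Pool.Agent.GS.K.N.C18
import Pool.Agent.GS.K.N.C19
import Pool.Agent.GS.K.N.C20
import Pool.Agent.GS.K.N.C21
import Pool.Agent.GS.K.N.C22
import Pool.Agent.GS.K.N.C23
import Pool.Agent.GS.K.N.C24
import Pool.Agent.GS.K.N.C25
import Pool.Agent.GS.K.N.C26
import Pool.Agent.GS.K.N.C27
import Pool.Agent.GS.K.N.C28
import Pool.Agent.GS.K.N.C29
import Pool.Agent.GS.K.N.C30
import Pool.Agent.GS.K.N.C31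
import Pool.Agent.GS.K.N.C32
import Pool.Agent.GS.K.N.C33
import Pool.Agent.GS.K.N.C34
import Pool.Agent.GS.K.N.C35
import Pool.Agent.GS.K.N.C36
import Pool.Agent.GS.K.N.C37
import Pool.Agent.GS.K.N.C38
import Pool.Agent.GS.K.N.C39
import Pool.Agent.GS.K.N.C40
import Pool.Agent.GS.K.N.C41
import Pool.Agent.GS.K.N.C42
import Pool.Agent.GS.K.N.C43
import Pool.Agent.GS.K.N.C44
import Pool.Agent.GS.K.N.C45
import Pool.Agent.GS.K.N.C46
import Pool.Agent.GS.K.N.C47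
import Pool.Agent.GS.K.N.C48
import Pool.Agent.GS.K.N.C49
import Pool.Agent.GS.K.N.C50
import Pool.Agent.GS.K.N.C51
import Pool.Agent.GS.K.N.C52
import Pool.Agent.GS.K.N.C53
import Pool.Agent.GS.K.N.C54

set_option autoImplicit false
set_option linter.unusedVariables false

namespace Pool.Agent.GS

/-- block number `b` of the node codes -/
def nBlk (b : Nat) : Nat :=
  cond (Nat.beq (Nat.land b (nat_lit 32)) (nat_lit 0)) (cond (Nat.beq (Nat.land b (nat_lit 16)) (nat_lit 0)) (cond (Nat.beq (Nat.land b (nat_lit 8)) (nat_lit 0)) (cond (Nat.beq (Nat.land b (nat_lit 4)) (nat_lit 0)) (cond (Nat.beq (Nat.land b (nat_lit 2)) (nat_lit 0)) (cond (Nat.beq (Nat.land b (nat_lit 1)) (nat_lit 0)) (cB0) (cB1)) (cond (Nat.beq (Nat.land b (nat_lit 1)) (nat_lit 0)) (cB2) (cB3))) (cond (Nat.beq (Nat.land b (nat_lit 2)) (nat_lit 0)) (cond (Nat.beq (Nat.land b (nat_lit 1)) (nat_lit 0)) (cB4) (cB5)) (cond (Nat.beq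 (Nat.land b (nat_lit 1)) (nat_lit 0)) (cB6) (cB7)))) (cond (Nat.beq (Nat.land b (nat_lit 4)) (nat_lit 0)) (cond (Nat.beq (Nat.land b (nat_lit 2)) (nat_lit 0)) (cond (Nat.beq (Nat.land b (nat_lit 1)) (nat_lit 0)) (cB8) (cB9)) (cond (Nat.beq (Nat.land b (nat_lit 1)) (nat_lit 0)) (cB10) (cB11))) (cond (Nat.beq (Nat.land b (nat_lit 2)) (nat_lit 0)) (cond (Nat.beq (Nat.land b (nat_lit 1)) (nat_lit 0)) (cB12) (cB13)) (cond (Nat.beq (Nat.land b (nat_lit 1)) (nat_lit 0)) (cB14) (cB15))))) (cond (Nat.beq (Nat.land b (nat_lit 8)) (nat_lit 0)) (cond (Nat.beq (Nat.land b (nat_lit 4)) (nat_lit 0)) (cond (Nat.beq (Nat.land b (nat_lit 2)) (nat_lit 0)) (cond (Nat.beq (Nat.land b (nat_lit 1)) (nat_lit 0)) (cB16) (cB17)) (cond (Nat.beq (Nat.land b (nat_lit 1)) (nat_lit 0)) (cB18) (cB19))) (cond (Nat.beq (Nat.land b (nat_lit 2)) (nat_lit 0)) (cond (Nat.beq (Nat.land b (nat_lit 1)) (nat_lit 0)) (cB20) (cB21)) (cond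 (Nat.beq (Nat.land b (nat_lit 1)) (nat_lit 0)) (cB22) (cB23)))) (cond (Nat.beq (Nat.land b (nat_lit 4)) (nat_lit 0)) (cond (Nat.beq (Nat.land b (nat_lit 2)) (nat_lit 0)) (cond (Nat.beq (Nat.land b (nat_lit 1)) (nat_lit 0)) (cB24) (cB25)) (cond (Nat.beq (Nat.land b (nat_lit 1)) (nat_lit 0)) (cB26) (cB27))) (cond (Nat.beq (Nat.land b (nat_lit 2)) (nat_lit 0)) (cond (Nat.beq (Nat.land b (nat_lit 1)) (nat_lit 0)) (cB28) (cB29)) (cond (Nat.beq (Nat.land b (nat_lit 1)) (nat_lit 0)) (cB30) (cB31)))))) (cond (Nat.beq (Nat.land b (nat_lit 16)) (nat_lit 0)) (cond (Nat.beq (Nat.land b (nat_lit 8)) (nat_lit 0)) (cond (Nat.beq (Nat.land b (nat_lit 4)) (nat_lit 0)) (cond (Nat.beq (Nat.land b (nat_lit 2)) (nat_lit 0)) (cond (Nat.beq (Nat.land b (nat_lit 1)) (nat_lit 0)) (cB32) (cB33)) (cond (Nat.beq (Nat.land b (nat_lit 1)) (nat_lit 0)) (cB34) (cB35))) (cond (Nat.beq (Nat.land b (nat_lit 2)) (nat_lit 0)) (cond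 (Nat.beq (Nat.land b (nat_lit 1)) (nat_lit 0)) (cB36) (cB37)) (cond (Nat.beq (Nat.land b (nat_lit 1)) (nat_lit 0)) (cB38) (cB39)))) (cond (Nat.beq (Nat.land b (nat_lit 4)) (nat_lit 0)) (cond (Nat.beq (Nat.land b (nat_lit 2)) (nat_lit 0)) (cond (Nat.beq (Nat.land b (nat_lit 1)) (nat_lit 0)) (cB40) (cB41)) (cond (Nat.beq (Nat.land b (nat_lit 1)) (nat_lit 0)) (cB42) (cB43))) (cond (Nat.beq (Nat.land b (nat_lit 2)) (nat_lit 0)) (cond (Nat.beq (Nat.land b (nat_lit 1)) (nat_lit 0)) (cB44) (cB45)) (cond (Nat.beq (Nat.land b (nat_lit 1)) (nat_lit 0)) (cB46) (cB47))))) (cond (Nat.beq (Nat.land b (nat_lit 8)) (nat_lit 0)) (cond (Nat.beq (Nat.land b (nat_lit 4)) (nat_lit 0)) (cond (Nat.beq (Nat.land b (nat_lit 2)) (nat_lit 0)) (cond (Nat.beq (Nat.land b (nat_lit 1)) (nat_lit 0)) (cB48) (cB49)) (cond (Nat.beq (Nat.land b (nat_lit 1)) (nat_lit 0)) (cB50) (cB51))) (cond (Nat.beq (Nat.land b (nat_lit 2)) (nat_lit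 0)) (cond (Nat.beq (Nat.land b (nat_lit 1)) (nat_lit 0)) (cB52) (cB53)) (cond (Nat.beq (Nat.land b (nat_lit 1)) (nat_lit 0)) (cB54) (cB54)))) (cond (Nat.beq (Nat.land b (nat_lit 4)) (nat_lit 0)) (cond (Nat.beq (Nat.land b (nat_lit 2)) (nat_lit 0)) (cond (Nat.beq (Nat.land b (nat_lit 1)) (nat_lit 0)) (cB54) (cB54)) (cond (Nat.beq (Nat.land b (nat_lit 1)) (nat_lit 0)) (cB54) (cB54))) (cond (Nat.beq (Nat.land b (nat_lit 2)) (nat_lit 0)) (cond (Nat.beq (Nat.land b (nat_lit 1)) (nat_lit 0)) (cB54) (cB54)) (cond (Nat.beq (Nat.land b (nat_lit 1)) (nat_lit 0)) (cB54) (cB54))))))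

/-- node number `m < 4096` -/
def nodeTab (m : Nat) : Nat := entN (nBlk (Nat.shiftRight m (nat_lit 6))) (Nat.land m (nat_lit 63))

theorem nBlk_ok : ∀ b, b < 64 → AllN (nBlk b) 64
  | 0, _ => all0
  | 1, _ => all1
  | 2, _ => all2
  | 3, _ => all3
  | 4, _ => all4
  | 5, _ => all5
  | 6, _ => all6
  | 7, _ => all7
  | 8, _ => all8
  | 9, _ => all9
  | 10, _ => all10
  | 11, _ => all11
  | 12, _ => all12
  | 13, _ => all13
  | 14, _ => all14
  | 15, _ => all15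
  | 16, _ => all16
  | 17, _ => all17
  | 18, _ => all18
  | 19, _ => all19
  | 20, _ => all20
  | 21, _ => all21
  | 22, _ => all22
  | 23, _ => all23
  | 24, _ => all24
  | 25, _ => all25
  | 26, _ => all26
  | 27, _ => all27
  | 28, _ => all28
  | 29, _ => all29
  | 30, _ => all30
  | 31, _ => all31
  | 32, _ => all32
  | 33, _ => all33
  | 34, _ => all34
  | 35, _ => all35
  | 36, _ => all36
  | 37, _ => all37
  | 38, _ => all38
  | 39, _ => all39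
  | 40, _ => all40
  | 41, _ => all41
  | 42, _ => all42
  | 43, _ => all43
  | 44, _ => all44
  | 45, _ => all45
  | 46, _ => all46
  | 47, _ => all47
  | 48, _ => all48
  | 49, _ => all49
  | 50, _ => all50
  | 51, _ => all51
  | 52, _ => all52
  | 53, _ => all53
  | 54, _ => all54
  | 55, _ => all54
  | 56, _ => all54
  | 57, _ => all54
  | 58, _ => all54
  | 59, _ => all54
  | 60, _ => all54
  | 61, _ => all54
  | 62, _ => all54
  | 63, _ => all54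
  | n + 64, h => absurd h (by omega)

end Pool.Agent.GS
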