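import Pool.Agent.GS.K.Mask

/-!
The refutation machine (functions evaluated by the kernel): see PatDefs.lean, RefIDefs.lean.
-/

set_option autoImplicit false
set_option linter.unusedVariables false

namespace Pool.Agent.GS

/-- domain of a product, three digits for `Dz + 8 Dw` -/
def prodTab : Nat := nat_lit 0xfffeb8efbcb0fedea8ee9ca0fbe698492490fac688000000

/-- digit `Dx + 8 Dy + 64 C`: some `Bal (-x) y c` is possible -/
def balTab : Nat := nat_lit 0xfefefefefefefe00fefcfef0fefcfe00fefefefefefafe00fef0fef0fef0fe00fefefefeeeeeaa00fefcfaf0eeccaa00fefefefeaaaaaa000000000000000000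

def dm (st s : Nat) : Nat := Nat.land (Nat.shiftRight st (Nat.mul (nat_lit 3) s)) (nat_lit 7)

def prd (a b : Nat) : Nat :=
  Nat.land (Nat.shiftRight prodTab (Nat.mul (nat_lit 3) (Nat.add a (Nat.mul (nat_lit 8) b))))
    (nat_lit 7)

def blc (a b c : Nat) : Bool :=
  Nat.beq (Nat.land (Nat.shiftRight balTab (Nat.add a (Nat.add (Nat.mul (nat_lit 8) b)
    (Nat.mul (nat_lit 64) c)))) (nat_lit 1)) (nat_lit 1)

/-- symbol at position `p` of the entry `e` -/
def sy (e p : Nat) : Nat := Nat.land (Nat.shiftRight e (Nat.mul (nat_lit 7) p)) (nat_lit 127)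

/-- the domain of the symbol at position `q`, replaced by `v` if `q = p` -/
noncomputable def dsel (st e p v q : Nat) : Nat :=
  Bool.rec (dm st (sy e q)) (Nat.shiftLeft (nat_lit 1) v) (Nat.beq p q)

/-- relation `e` is possible when the symbol at position `p` has the sign with code `v` -/
noncomputable def possQ (st e p v : Nat) : Bool :=
  blc (dsel st e p v (nat_lit 0)) (dsel st e p v (nat_lit 1))
    (prd (dsel st e p v (nat_lit 2)) (dsel st e p v (nat_lit 3)))

def tR (t : Nat) : Nat := Nat.land (Nat.shiftRight t (nat_lit 1)) (nat_lit 511)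
def tP (t : Nat) : Nat := Nat.land (Nat.shiftRight t (nat_lit 10)) (nat_lit 3)
def tV (t : Nat) : Nat := Nat.mod (Nat.land (Nat.shiftRight t (nat_lit 12)) (nat_lit 3)) (nat_lit 3)
def tS (t : Nat) : Nat := Nat.land (Nat.shiftRight t (nat_lit 1)) (nat_lit 127)
def tW (t : Nat) : Nat := Nat.mod (Nat.land (Nat.shiftRight t (nat_lit 8)) (nat_lit 3)) (nat_lit 3)
def tok (c : Nat) : Nat := Nat.land c (nat_lit 16383)
def nxt (c : Nat) : Nat := Nat.shiftRight c (nat_lit 14)

/-- remove the value `v` of symbol `s` -/
def rmv (st s v : Nat) : Nat :=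
  Nat.xor st (Nat.shiftLeft (nat_lit 1) (Nat.add (Nat.mul (nat_lit 3) s) v))

/-- give the value `v` to symbol `s` -/
def asg (st s v : Nat) : Nat :=
  Nat.xor st (Nat.shiftLeft (Nat.xor (dm st s) (Nat.shiftLeft (nat_lit 1) v))
    (Nat.mul (nat_lit 3) s))

/-- continue with the next open branch -/
noncomputable def pop (ih : Nat → List Nat → Nat → Bool) (k : Nat → Bool) (stk : List Nat) (c : Nat) : Bool :=
  List.rec (k c) (fun a l _ => ih a l c) stk

noncomputable def derive (ih : Nat → List Nat → Nat → Bool) (k : Nat → Bool) (st : Nat) (stk : List Nat)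
    (c e p v : Nat) : Bool :=
  Bool.rec
    (Bool.rec (ih (rmv st (sy e p) v) stk c) (pop ih k stk c)
      (Nat.beq (dm (rmv st (sy e p) v) (sy e p)) (nat_lit 0)))
    false (possQ st e p v)

noncomputable def branch (ih : Nat → List Nat → Nat → Bool) (st : Nat) (stk : List Nat) (c s v : Nat) : Bool :=
  ih (asg st s v) (rmv st s v :: stk) c

/-- one digit of a number, as a Boolean -/
def bit1 (x i : Nat) : Bool := Nat.beq (Nat.land (Nat.shiftRight x i) (nat_lit 1)) (nat_lit 1)

end Pool.Agent.GS

namespace Pool.Agent.GS.RI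

/-- the relations with lane numbers: entry `r` (28 digits) has the four lanes of relation `r` -/
def relTabI : Nat := nat_lit 0x9738dcf9738dcf9738dcf9738dcf9738dcf9738dcf9738dcf9738dcf9738dcf9738dcf9738dcf9738dcf9738dcf9738dcf9738dcf9738dcf9738dcf9738dcf9738dcf9738dcf9738dcf9738dcf9738dcf9738dcf9738dcf9738dcf9738dcf9738dcf9738dcf9738dcf9738dcf9738dcf74f9e3d38a52a85d05bc0011cb466ae1e371e5d2965f0dec003254464699e252065b963aadea8073204674f5dbe38a10295d0194101184c762cddb20c29009610df4105254c73e85da00e319093cadf2909320c76addb381e589975f019c3031854962c9b330c2498a6105c43051cbc92451b13103198a2265c170b321c946952262058a193aa10ab071864c3e812210e24a0c3ca532b091cccc244d214102908c225d3190b255cc76fde3d76e9e3d7cfde3d40a92a840712a852a92a86509bc064b9bc08309bc01320b461200b468f20b466ce5e376cd5e3770e5e372661296263d2962e612966711ec066bdec08711ec0152944614054469329446489de25488de254c9de252869b962841b963269b9642b1ea84275ea856b1ea81936046180e046993604676f5d3f40a0e2a6501742131804862bdd2e0c04e006911fc217295483e75d1c0e0d70044b1faa1b361486cddab92658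79867017c415180ca62b9aaf0c007816909cc41720c4a2441a8f100d7812a69c981d3624a48951a7285881a42a0eac19181cd3e7119d0e0080344a93ac1b20d4d243d1901004e832a6139a1d2964d78fddbe78e9dbe7afddbe4aa90294a7102950a90296f099416eb994181099412d204c72c004c78d204c76cd1db26cc5db266d1db2262d0092619009142d0097115f4170c1f418715f412f2d4c72e094c7932d4c74889da0487dda04289da02835909281d90918359094cb5f294c79f2956b5f29333a0c732120c7993a0c778f9d3f78edd3f7af9d3f4aa4e2a4a80e2a50a4e2a6f057426ec974281057422d1c0482c240488d1c0486ac1d2e6ac5d2e5ec1d2e1e08e001e18e000208e007315fc272d1fc28915fc2312d548302d548952d5484679d1c467dd1c3a79d1c2011700201d70006117004eb5faa4e89faa58b5faa353a14834361489b3a1486cc98b4262430b71058452f1c14b6ab98b01e003027309a4531205cb241d88622118022a35a0b373a2cb4880fa2282438d4ca4f2d331c24e4670f9e20003844ea912d35206ce2418f872208f042a2d10d372d6ce78e5b3878d5b386ee5b384a609974a3c9972c609977b119c37abd9c381119c3512854950045498d2854976d1b3376c5b3364d1b33402c98a401898a122c98a7d15c437cc1c438315c43532cbc95208bc98f2cbc94855b134849b132855b13423998a422198a18399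8a4c6dc174c45c17326dc17573e1c956161c9993e1c978e1ab978d9ab96ee1ab94a5c7984a4c7982c5c7987b0d7c47acd7c4810d7c451240ca50280ca8d240ca74c1aaf74c5aaf5cc1aaf3808781381878100087817f15cc47ed1cc48515cc4552cc4a542cc4a912cc4a4645a8f4649a8f2045a8f3a157813a2178106157814e6dc984e55c98346dc98593e24a583a24a9b3e24a76cd8b476d98b464cd8b4402830b404c30b122830b7d0d8457ce1845830d845532414b525c14b8f2414b74bd8b074d58b05cbd8b03804302383c30200043027f11a457ee5a458511a4555285cb54605cb91285cb3e218863e498860e218863c158023c4580208158024439a0b4455a0b1a39a0b5b3e2cb5a6e2cb9d3e2cb484c915422840e4c5c89b57242cf463c9113a044054e60a9b592874f3e189083c08885442ca8e5b2cdcf789d226788d2264a9d2266e68a196e40a192c68a197ab10ab7a750ab50b10ab813464c800c64c8d3464c7689221767d22140892216434a0c641ca0c1234a0c7cb532b7c7932b52b532b8338ccc8210ccc8f38ccc6c552146c492142655214663908c662108c143908c706d31970453192e6d319873d5cc86155cc933d5cc78991a778911a74a991a76e6481a6e5081a2c6481a7aaceac7a84eac50aceac81301cd80301cd8d301cd747919d747d19d387919d5c108035c1c80300108037eb53ac7e893ac54b53ac8538d4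d8434d4d9138d4d6a451906a491901e451905e14e835e20e830214e83726d39a725539a306d39a893d64d883964d953d64d7684fa27690fa24084fa2643038d645038d123038d7cacf2d7c98f2d52acf2d833024e826424e8f3024e7474f9e748cf9e3874f9e5c0c3845c40384000c3847eb112d7e9d12d54b112d85346ce84686ce91346ce6220f876248f870c20f876014f046044f040414f04683910d685510d163910d8b3d6ce8a6d6ce973d6ce6c509156c909152650915663040e668440e143040e706489b709889b2e6489b87302cf86ac2cf93302cf6a409116a8c9111e409115e0c4055e74405020c4057268a9b729ca9b3068a9b893474f88b074f953474f621c908627c9080c1c9086010885607888504108856834a8e6888a8e1634a8e8b38dcf8ab4dcf9738dcf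

/-- end points of the pair of the lane `b`, five digits for each lane -/
def epTabI : Nat := nat_lit 0x1953132a4ca60ca9329865318a3152c4946950c6530a98b2984c711496342952c1a62a9607190c6950cb134a83298654994c

def entI (r : Nat) : Nat :=
  Nat.land (Nat.shiftRight relTabI (Nat.mul (nat_lit 28) r)) (nat_lit 268435455)

def epI (b : Nat) : Nat :=
  Nat.land (Nat.shiftRight epTabI (Nat.mul (nat_lit 5) b)) (nat_lit 31)

noncomputable def stepI (ih : Nat → List Nat → Nat → Bool) (k : Nat → Bool) (st : Nat) (stk : List Nat)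
    (c t : Nat) : Bool :=
  Bool.rec (derive ih k st stk c (entI (tR t)) (tP t) (tV t)) (branch ih st stk c (tS t) (tW t))
    (Nat.beq (Nat.land t (nat_lit 1)) (nat_lit 1))

/-- the machine: state, stack of open branches, token stream; `k` is called with the rest of the
stream when all branches are closed -/
noncomputable def runI (k : Nat → Bool) (fuel : Nat) : Nat → List Nat → Nat → Bool :=
  Nat.rec (fun _ _ _ => false) (fun _ ih st stk c => stepI ih k st stk (nxt c) (tok c)) fuel

/-- header: `m` lanes with domain `{+, -}` which may be assumed positive, 10 digits each (lane, new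
end point) -/
noncomputable def headI (go : Nat → Nat → Bool) (m : Nat) : Nat → Nat → Nat → Bool :=
  Nat.rec (fun _ st c => go st c)
    (fun _ ih used st c =>
      ((Nat.beq (dm st (Nat.land c (nat_lit 127))) (nat_lit 5)).and
      ((Nat.ble (Nat.land c (nat_lit 127)) (nat_lit 79)).and
      ((bit1 (epI (Nat.land c (nat_lit 127))) (Nat.land (Nat.shiftRight c (nat_lit 7)) (nat_lit 7))).and
      ((bit1 used (Nat.land (Nat.shiftRight c (nat_lit 7)) (nat_lit 7))).not)))).and
      (ih (Nat.lor used (epI (Nat.land c (nat_lit 127))))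
        (asg st (Nat.land c (nat_lit 127)) (nat_lit 0)) (Nat.shiftRight c (nat_lit 10)))) m

/-- check the certificate at the beginning of the stream `c` for the state `st`; `k` gets the rest
of the stream. The first three digits of the certificate are the length of the header. -/
noncomputable def coreRun (fuel st c : Nat) (k : Nat → Bool) : Bool :=
  headI (fun st' c' => runI k fuel st' [] c') (Nat.land c (nat_lit 7)) (nat_lit 0) st
    (Nat.shiftRight c (nat_lit 3))

/-! ### initial states -/

def sp1 (s m x : Nat) : Nat := Nat.land (Nat.lor x (Nat.shiftLeft x s)) m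

/-- digit `b` goes to digit `3 b` -/
def spread (x : Nat) : Nat :=
  sp1 (nat_lit 2) (nat_lit 0x249249249249249249249249249249249249249249249249249249249249)
    (sp1 (nat_lit 4) (nat_lit 0xc30c30c30c30c30c30c30c30c30c30c30c30c30c30c30c30c30c30c30c3)
      (sp1 (nat_lit 8) (nat_lit 0xf00f00f00f00f00f00f00f00f00f00f00f00f00f00f00f00f00f00f00f)
        (sp1 (nat_lit 16) (nat_lit 0xff0000ff0000ff0000ff0000ff0000ff0000ff0000ff0000ff0000ff)
          (sp1 (nat_lit 32) (nat_lit 0xffff00000000ffff00000000ffff00000000ffff00000000ffff)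
            (sp1 (nat_lit 64) (nat_lit 0xffff0000000000000000ffffffff0000000000000000ffffffff)
              (sp1 (nat_lit 128) (nat_lit 0xffff00000000000000000000000000000000ffffffffffffffff) x))))))

def M5 : Nat := nat_lit 0xb6db6db6db6db6db6db6db6db6db6db6db6db6db6db6db6db6db6db6db6d
def M7 : Nat := nat_lit 0xffffffffffffffffffffffffffffffffffffffffffffffffffffffffffff

/-- each digit three times -/
def rep3 (x : Nat) : Nat := Nat.lor x (Nat.lor (Nat.shiftLeft x (nat_lit 1)) (Nat.shiftLeft x (nat_lit 2)))
def rep2 (x : Nat) : Nat := Nat.lor x (Nat.shiftLeft x (nat_lit 2))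

/-- start state of a node: decided lanes (weight `> w`) have the domain `{0}` or `{+, -}` -/
def stAW (A w : Nat) : Nat :=
  Nat.xor (Nat.lor M5 (Nat.pred (Nat.mul (nat_lit 8) (Nat.mul w (Nat.mul w w))))) (rep3 (spread A))

/-- start state of a pattern: members `o`, non-members `z` -/
def stOZ (o z : Nat) : Nat :=
  Nat.xor (Nat.xor M7 (rep2 (spread o))) (Nat.shiftLeft (spread z) (nat_lit 1))

def rfuel : Nat := nat_lit 4096

/-- refute the node `(A, w)` with the certificate `c` -/
noncomputable def refRun (A w c : Nat) (k : Nat → Bool) : Bool := coreRun rfuel (stAW A w) c k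

noncomputable def patRunI (fuel o z c : Nat) (k : Nat → Bool) : Bool := coreRun fuel (stOZ o z) c k

/-- check the first `n` entries (128 digits each) of the block `R` with the stream `c` -/
noncomputable def patAllI (n fuel : Nat) : Nat → Nat → Bool :=
  Nat.rec (fun _ _ => true)
    (fun _ ih R c =>
      patRunI fuel (mask1 (Nat.land R M128) (gTab (nat_lit 0))) (mask0 (Nat.land R M128) (gTab (nat_lit 0))) c
        (fun c' => ih (Nat.shiftRight R (nat_lit 128)) c')) n

end Pool.Agent.GS.RI
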