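import Pool.Agent.GS.K.RuleTabO
import Pool.Agent.GS.K.RuleTabR
import Pool.Agent.GS.K.Mask

set_option autoImplicit false
set_option linter.unusedVariables false


namespace Pool.Agent.GS

/-- block number `b` of the table of patterns -/
def rBlk (b : Nat) : Nat :=
  cond (Nat.beq (Nat.land b (nat_lit 32)) (nat_lit 0)) (cond (Nat.beq (Nat.land b (nat_lit 16)) (nat_lit 0)) (cond (Nat.beq (Nat.land b (nat_lit 8)) (nat_lit 0)) (cond (Nat.beq (Nat.land b (nat_lit 4)) (nat_lit 0)) (cond (Nat.beq (Nat.land b (nat_lit 2)) (nat_lit 0)) (cond (Nat.beq (Nat.land b (nat_lit 1)) (nat_lit 0)) (rO0) (rO1)) (cond (Nat.beq (Nat.land b (nat_lit 1)) (nat_lit 0)) (rO2) (rO3))) (cond (Nat.beq (Nat.land b (nat_lit 2)) (nat_lit 0)) (cond (Nat.beq (Nat.land b (nat_lit 1)) (nat_lit 0)) (rO4) (rO5)) (cond (Nat.beq (Nat.land b (nat_lit 1)) (nat_lit 0)) (rO6) (rO7)))) (cond (Nat.beq (Nat.land b (nat_lit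 4)) (nat_lit 0)) (cond (Nat.beq (Nat.land b (nat_lit 2)) (nat_lit 0)) (cond (Nat.beq (Nat.land b (nat_lit 1)) (nat_lit 0)) (rO8) (rO9)) (cond (Nat.beq (Nat.land b (nat_lit 1)) (nat_lit 0)) (rO10) (rO11))) (cond (Nat.beq (Nat.land b (nat_lit 2)) (nat_lit 0)) (cond (Nat.beq (Nat.land b (nat_lit 1)) (nat_lit 0)) (rO12) (rO13)) (cond (Nat.beq (Nat.land b (nat_lit 1)) (nat_lit 0)) (rO14) (rO15))))) (cond (Nat.beq (Nat.land b (nat_lit 8)) (nat_lit 0)) (cond (Nat.beq (Nat.land b (nat_lit 4)) (nat_lit 0)) (cond (Nat.beq (Nat.land b (nat_lit 2)) (nat_lit 0)) (cond (Nat.beq (Nat.land b (nat_lit 1)) (nat_lit 0)) (rO16) (rO17)) (cond (Nat.beq (Nat.land b (nat_lit 1)) (nat_lit 0)) (rO18) (rO19))) (cond (Nat.beq (Nat.land b (nat_lit 2)) (nat_lit 0)) (cond (Nat.beq (Nat.land b (nat_lit 1)) (nat_lit 0)) (rO20) (rO21)) (cond (Nat.beq (Nat.land b (nat_lit 1)) (nat_lit 0)) (rO22) (rO23))))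 (cond (Nat.beq (Nat.land b (nat_lit 4)) (nat_lit 0)) (cond (Nat.beq (Nat.land b (nat_lit 2)) (nat_lit 0)) (cond (Nat.beq (Nat.land b (nat_lit 1)) (nat_lit 0)) (rO24) (rO25)) (cond (Nat.beq (Nat.land b (nat_lit 1)) (nat_lit 0)) (rO26) (rO27))) (cond (Nat.beq (Nat.land b (nat_lit 2)) (nat_lit 0)) (cond (Nat.beq (Nat.land b (nat_lit 1)) (nat_lit 0)) (rO28) (rR0)) (cond (Nat.beq (Nat.land b (nat_lit 1)) (nat_lit 0)) (rR1) (rR2)))))) (cond (Nat.beq (Nat.land b (nat_lit 16)) (nat_lit 0)) (cond (Nat.beq (Nat.land b (nat_lit 8)) (nat_lit 0)) (cond (Nat.beq (Nat.land b (nat_lit 4)) (nat_lit 0)) (cond (Nat.beq (Nat.land b (nat_lit 2)) (nat_lit 0)) (cond (Nat.beq (Nat.land b (nat_lit 1)) (nat_lit 0)) (rR3) (rR4)) (cond (Nat.beq (Nat.land b (nat_lit 1)) (nat_lit 0)) (rR5) (rR6))) (cond (Nat.beq (Nat.land b (nat_lit 2)) (nat_lit 0)) (cond (Nat.beq (Nat.land b (nat_lit 1)) (nat_lit 0))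 (rR7) (rR8)) (cond (Nat.beq (Nat.land b (nat_lit 1)) (nat_lit 0)) (rR9) (rR10)))) (cond (Nat.beq (Nat.land b (nat_lit 4)) (nat_lit 0)) (cond (Nat.beq (Nat.land b (nat_lit 2)) (nat_lit 0)) (cond (Nat.beq (Nat.land b (nat_lit 1)) (nat_lit 0)) (rR11) (rR12)) (cond (Nat.beq (Nat.land b (nat_lit 1)) (nat_lit 0)) (rR13) (rR14))) (cond (Nat.beq (Nat.land b (nat_lit 2)) (nat_lit 0)) (cond (Nat.beq (Nat.land b (nat_lit 1)) (nat_lit 0)) (rR15) (rR16)) (cond (Nat.beq (Nat.land b (nat_lit 1)) (nat_lit 0)) (rR17) (rR18))))) (cond (Nat.beq (Nat.land b (nat_lit 8)) (nat_lit 0)) (cond (Nat.beq (Nat.land b (nat_lit 4)) (nat_lit 0)) (cond (Nat.beq (Nat.land b (nat_lit 2)) (nat_lit 0)) (cond (Nat.beq (Nat.land b (nat_lit 1)) (nat_lit 0)) (rR19) (rR20)) (cond (Nat.beq (Nat.land b (nat_lit 1)) (nat_lit 0)) (rR21) (rR22))) (cond (Nat.beq (Nat.land b (nat_lit 2)) (nat_lit 0)) (cond (Nat.beq (Nat.land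 b (nat_lit 1)) (nat_lit 0)) (rR23) (rR24)) (cond (Nat.beq (Nat.land b (nat_lit 1)) (nat_lit 0)) (rR25) (rR26)))) (cond (Nat.beq (Nat.land b (nat_lit 4)) (nat_lit 0)) (cond (Nat.beq (Nat.land b (nat_lit 2)) (nat_lit 0)) (cond (Nat.beq (Nat.land b (nat_lit 1)) (nat_lit 0)) (rR27) (rR28)) (cond (Nat.beq (Nat.land b (nat_lit 1)) (nat_lit 0)) (rR29) (rR30))) (cond (Nat.beq (Nat.land b (nat_lit 2)) (nat_lit 0)) (cond (Nat.beq (Nat.land b (nat_lit 1)) (nat_lit 0)) (rR31) (rR32)) (cond (Nat.beq (Nat.land b (nat_lit 1)) (nat_lit 0)) (rR33) (rR34))))))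

/-- entry number `n < 4096` of the table of patterns: 1856 non-orientable patterns, then the 2240
inference rules -/
def ruleE (n : Nat) : Nat := entB (rBlk (Nat.shiftRight n (nat_lit 6))) (Nat.land n (nat_lit 63))

end Pool.Agent.GS
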