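import Pool.Agent.GS.K.Wit
import Pool.Agent.GS.K.TreeBase
import Pool.Agent.GS.K.RuleTab
import Pool.Agent.GS.K.AlgTab
import Pool.Agent.GS.K.PosTab
import Pool.Agent.GS.K.Ref

/-!
The search tree over all sets of symbols: kernel-evaluated checker (definitions only).

State: `A` = internal code of the members decided so far (position `p` has weight `2 ^ (79 - p)`),
`w` = weight of the next undecided position (`0` if all are decided), `s` = token stream. The
functions return the rest of the stream, or `0` in case of failure.
A position is decided iff its weight is `> w`.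
-/

set_option autoImplicit false
set_option linter.unusedVariables false


namespace Pool.Agent.GS.Tree

/-- `s` if `b`, otherwise `0` (failure) -/
noncomputable def ret (b : Bool) (s : Nat) : Nat := Bool.rec (nat_lit 0) s b

/-- lexicographic token: 6 bits kind, 7 bits number of positions, 8 bits table number -/
noncomputable def tokLex (A w s : Nat) : Nat :=
  ret (lexChk A w (Nat.shiftRight (Nat.land s (nat_lit 8191)) (nat_lit 6))
      (gTab (Nat.shiftRight (Nat.land s (nat_lit 2097151)) (nat_lit 13))))
    (Nat.shiftRight s (nat_lit 21))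

/-- rule token: 6 bits kind, 12 bits rule number, 8 bits table number -/
noncomputable def tokRule (A w s : Nat) : Nat :=
  ret (patHit (ruleE (Nat.shiftRight (Nat.land s (nat_lit 262143)) (nat_lit 6)))
      (gTab (Nat.shiftRight (Nat.land s (nat_lit 67108863)) (nat_lit 18))) A w)
    (Nat.shiftRight s (nat_lit 26))

/-- inline certificate of non-orientability: 6 bits kind, 10 bits length `l`, certificate -/
noncomputable def tokRef2 (A w s l : Nat) : Nat :=
  ret (RI.refRun A w
      (Nat.land (Nat.shiftRight s (nat_lit 16)) (Nat.pred (Nat.shiftLeft (nat_lit 1) l)))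
      (fun _ => true))
    (Nat.shiftRight s (Nat.add (nat_lit 16) l))

noncomputable def tokRef (A w s : Nat) : Nat :=
  tokRef2 A w s (Nat.shiftRight (Nat.land s (nat_lit 65535)) (nat_lit 6))

/-- code of a node -/
def nodeCode (A w : Nat) : Nat := Nat.succ (Nat.add A (Nat.shiftLeft w (nat_lit 80)))

/-- node token: 6 bits kind, 12 bits node number -/
noncomputable def tokNode (nt : Nat → Nat) (A w s : Nat) : Nat :=
  ret (Nat.beq (nodeCode A w) (nt (Nat.shiftRight (Nat.land s (nat_lit 262143)) (nat_lit 6))))
    (Nat.shiftRight s (nat_lit 18))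

def W0 : Nat := nat_lit 0xffffffffffffffffffffffffffffff
def W1 : Nat := nat_lit 0xffffffffffffffffffffffffffffffffffffffffffffffffffffffffffff
def W2 : Nat := nat_lit 0xffffffffffffffffffffffffffffffffffffffffffffffffffffffffffffffffffffffffffffffffffffffffffffffffffffffffffffffffffffffff
def W3 : Nat := nat_lit 0xffffffffffffffffffffffffffffffffffffffffffffffffffffffffffffffffffffffffffffffffffffffffffffffffffffffffffffffffffffffffffffffffffffffffffffffffffffffffffffffffffffffffffffffffffffffffffffffffffffffffffffffffffffffffffffffffffffffffffffffff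

/-- integer witness tokens: 6 bits kind, 15 entries -/
noncomputable def tokW0 (A w s : Nat) : Nat :=
  ret (Bool.rec false (witK0 A (Nat.land (Nat.shiftRight s (nat_lit 6)) W0)) (isZ w))
    (Nat.shiftRight s (nat_lit 126))
noncomputable def tokW1 (A w s : Nat) : Nat :=
  ret (Bool.rec false (witK1 A (Nat.land (Nat.shiftRight s (nat_lit 6)) W1)) (isZ w))
    (Nat.shiftRight s (nat_lit 246))
noncomputable def tokW2 (A w s : Nat) : Nat :=
  ret (Bool.rec false (witK2 A (Nat.land (Nat.shiftRight s (nat_lit 6)) W2)) (isZ w))
    (Nat.shiftRight s (nat_lit 486))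
noncomputable def tokW3 (A w s : Nat) : Nat :=
  ret (Bool.rec false (witK3 A (Nat.land (Nat.shiftRight s (nat_lit 6)) W3)) (isZ w))
    (Nat.shiftRight s (nat_lit 966))

/-- algebraic witness: 6 bits kind, 8 bits number -/
noncomputable def tokAlg (A w s : Nat) : Nat :=
  ret (Bool.rec false
      (Nat.beq A (algTab (Nat.shiftRight (Nat.land s (nat_lit 16383)) (nat_lit 6)))) (isZ w))
    (Nat.shiftRight s (nat_lit 14))

/-- tokens with low bits `01` (value 2): kinds 0 to 8 by the bits 2 to 5 -/
noncomputable def tokOther (nt : Nat → Nat) (A w s : Nat) : Nat :=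
  Bool.rec
    (Bool.rec
      (Bool.rec
        (Bool.rec
          (Bool.rec (tokLex A w s) (tokRule A w s) (bt s (nat_lit 4)))
          (Bool.rec (tokNode nt A w s) (tokRef A w s) (bt s (nat_lit 4)))
          (bt s (nat_lit 8)))
        (Bool.rec (tokW1 A w s)
          (Bool.rec (tokW2 A w s) (tokW3 A w s) (bt s (nat_lit 4)))
          (bt s (nat_lit 8)))
        (bt s (nat_lit 16)))
      (tokAlg A w s)
      (bt s (nat_lit 32)))
    (tokW0 A w s)
    (Nat.beq (Nat.land s (nat_lit 63)) (nat_lit 18))

/-! Local patterns. An entry has 168 bits: 80 bits `W` = positions of the pattern other than the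
current one, 80 bits `M` = members among them, 8 bits: `0` if the current position is a member of
the pattern, `1` if it is a non-member. Unused entries have `W = 0`, `M = 1`. -/

/-- `0` iff `A` agrees with the entry `E` -/
def locX (A E : Nat) : Nat :=
  Nat.xor (Nat.land A (Nat.land E M80)) (Nat.land (Nat.shiftRight E (nat_lit 80)) M80)

/-- the flag of the entry -/
def locF (E : Nat) : Nat := Nat.land (Nat.shiftRight E (nat_lit 160)) (nat_lit 1)

/-- one child is refuted by the local pattern with the entry `E`: the member child if the flag is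
`0`; go on with the other one -/
noncomputable def tokForced (go : Nat → Nat → Nat → Nat) (A w s E : Nat) : Nat :=
  go (Nat.lor A (Nat.mul w (locF E))) (Nat.shiftRight w (nat_lit 1))
    (Nat.mul (Nat.shiftRight s (nat_lit 9)) (Nat.sub (nat_lit 1) (locX A E)))

/-- both children are refuted by the local patterns with the entries `E` (member child), `F` -/
noncomputable def tokBoth (A s E F : Nat) : Nat :=
  Nat.mul (Nat.shiftRight s (nat_lit 20))
    (Nat.sub (nat_lit 1) (Nat.lor (Nat.lor (locX A E) (locX A F))
      (Nat.lor (locF E) (Nat.sub (nat_lit 1) (locF F)))))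

/-- a state with an undecided position; `hd` = table of the local patterns with this position as
last one, `go A w s` = check a child. Tokens by the two low bits: `0`: forced, 7 bits number of
the pattern; `1`: split (member first); otherwise kind 9 (value 38): both refuted, 7 + 7 bits,
or one of the tokens above. -/
noncomputable def node (nt : Nat → Nat) (go : Nat → Nat → Nat → Nat) (hd A w s : Nat) : Nat :=
  Nat.rec
    (tokForced go A w s (Nat.shiftRight hd
      (Nat.mul (nat_lit 168) (Nat.shiftRight (Nat.land s (nat_lit 511)) (nat_lit 2)))))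
    (fun m _ => Nat.rec
      (go A (Nat.shiftRight w (nat_lit 1))
        (go (Nat.lor A w) (Nat.shiftRight w (nat_lit 1)) (Nat.shiftRight s (nat_lit 2))))
      (fun _ _ => Bool.rec (tokOther nt A w s)
        (tokBoth A s
          (Nat.shiftRight hd
            (Nat.mul (nat_lit 168) (Nat.shiftRight (Nat.land s (nat_lit 8191)) (nat_lit 6))))
          (Nat.shiftRight hd
            (Nat.mul (nat_lit 168) (Nat.shiftRight (Nat.land s (nat_lit 1048575)) (nat_lit 13)))))
        (Nat.beq (Nat.land s (nat_lit 60)) (nat_lit 36)))
      m)
    (Nat.land s (nat_lit 3))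

/-- run the checker on a state; `tbl` = tables of the undecided positions; the result is the rest
of the stream, `0` = failure -/
noncomputable def run (nt : Nat → Nat) (tbl : List Nat) : Nat → Nat → Nat → Nat :=
  List.rec (fun A w s => tokOther nt A w s) (fun hd _ ih A w s => node nt ih hd A w s) tbl

/-- check the subtree with the code `x` -/
noncomputable def chunkRun (x s : Nat) : Bool :=
  Bool.rec false
    (Nat.beq (run (fun _ => nat_lit 0)
      (List.drop (Nat.sub (nat_lit 79) (Nat.log2 (Nat.shiftRight (Nat.pred x) (nat_lit 80)))) posTab)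
      (Nat.land (Nat.pred x) M80) (Nat.shiftRight (Nat.pred x) (nat_lit 80)) s) (nat_lit 1))
    (Nat.beq (Nat.shiftRight (Nat.pred x) (nat_lit 80))
      (Nat.shiftLeft (nat_lit 1) (Nat.log2 (Nat.shiftRight (Nat.pred x) (nat_lit 80)))))

end Pool.Agent.GS.Tree
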